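import Pool.Agent.U136.DX.Stm5

/-!
# Project DX, package DEG2: the near-resonant triads of a polynomial dispersion relation whose
integer translates separate the integer points (helper925, after `U423/DX/DEGC.lean` of helper423)
-/

set_option autoImplicit false

namespace Pool.Agent.U925.DX

open Pool.Agent.N983.RT Pool.Agent.U136.DS Pool.Agent.U136.DX

theorem polyD_P {D : ℕ} {p : Wv → ℝ} (hp : PolyD D p) (m : Wv) :
    PolyD D fun x => p x - p (x + m) + p m := by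
  intro k i
  obtain ⟨q1, h1, h1'⟩ := hp k i
  obtain ⟨q2, h2, h2'⟩ := hp (k + m) i
  refine ⟨q1 - q2.comp (Polynomial.X + Polynomial.C (m i : ℝ)) + Polynomial.C (p m), ?_, ?_⟩
  · have h3 : (q2.comp (Polynomial.X + Polynomial.C (m i : ℝ))).natDegree ≤ D := by
      rw [Polynomial.natDegree_comp, Polynomial.natDegree_X_add_C, mul_one]
      exact h2
    refine (Polynomial.natDegree_add_le _ _).trans
      (max_le ((Polynomial.natDegree_sub_le _ _).trans (max_le h1 h3)) ?_)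
    rw [Polynomial.natDegree_C]
    exact Nat.zero_le _
  · intro t
    have h4 : Function.update k i t + m = Function.update (k + m) i (t + m i) := by
      ext j
      by_cases hj : j = i
      · subst hj
        simp
      · simp [hj]
    simp only
    rw [h1', h4, h2' (t + m i)]
    simp

/-- the growth of the two sides -/
theorem growth {τ C₂ : ℝ} {n e : ℕ}
    (hn : C₂ * (4 : ℝ) ^ (τ / 2) < ((4 : ℝ) ^ (2 - τ / 2)) ^ n) (ha : 1 < (4 : ℝ) ^ (2 - τ / 2))
    (hne : n ≤ e) : C₂ * ((4 : ℝ) ^ (e + 1)) ^ (τ / 2) < 16 ^ e := by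
  have h1 : ((4 : ℝ) ^ (e + 1)) ^ (τ / 2) = ((4 : ℝ) ^ (τ / 2)) ^ (e + 1) := by
    rw [← Real.rpow_natCast, ← Real.rpow_natCast, ← Real.rpow_mul (by norm_num),
      ← Real.rpow_mul (by norm_num), mul_comm]
  have h2 : (16 : ℝ) = (4 : ℝ) ^ (τ / 2) * (4 : ℝ) ^ (2 - τ / 2) := by
    rw [← Real.rpow_add (by norm_num)]
    norm_num
  have h3 : ((4 : ℝ) ^ (2 - τ / 2)) ^ n ≤ ((4 : ℝ) ^ (2 - τ / 2)) ^ e :=
    pow_le_pow_right₀ ha.le hne
  have h4 : 0 < ((4 : ℝ) ^ (τ / 2)) ^ e := by positivity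
  rw [h1, h2, mul_pow]
  calc C₂ * ((4 : ℝ) ^ (τ / 2)) ^ (e + 1)
      = (C₂ * (4 : ℝ) ^ (τ / 2)) * ((4 : ℝ) ^ (τ / 2)) ^ e := by ring
    _ < ((4 : ℝ) ^ (2 - τ / 2)) ^ n * ((4 : ℝ) ^ (τ / 2)) ^ e := mul_lt_mul_of_pos_right hn h4
    _ ≤ ((4 : ℝ) ^ (2 - τ / 2)) ^ e * ((4 : ℝ) ^ (τ / 2)) ^ e :=
        mul_le_mul_of_nonneg_right h3 h4.le
    _ = ((4 : ℝ) ^ (τ / 2)) ^ e * ((4 : ℝ) ^ (2 - τ / 2)) ^ e := mul_comm _ _

/-- the size of a triad -/
theorem mx_le (k m : Wv) : mx k (-(k + m)) m ≤ 2 * (nsq k + nsq (k + m)) := by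
  have h0 : ∀ x : Wv, 0 ≤ nsq x := fun x => by
    unfold nsq
    exact Finset.sum_nonneg fun i _ => sq_nonneg _
  have h1 : nsq m ≤ 2 * (nsq k + nsq (k + m)) := by
    unfold nsq
    rw [← Finset.sum_add_distrib, Finset.mul_sum]
    refine Finset.sum_le_sum fun i _ => ?_
    rw [Pi.add_apply]
    push_cast
    nlinarith [sq_nonneg ((2 : ℝ) * (k i : ℝ) + (m i : ℝ))]
  have h2 := h0 k
  have h3 := h0 (k + m)
  unfold mx
  rw [asm_nsq_neg]
  exact max_le (by linarith) (max_le (by linarith) h1)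

theorem t_DEG2 : S_DEG2 := by
  intro hC3 p D hodd hp hsep τ hτ hτ4
  obtain ⟨N, r, c, κ, X₀, hκ, hc0, hsp⟩ := hsep
  obtain ⟨C, hC0, hC⟩ := hC3 D N
  obtain ⟨C₁, hC₁⟩ : ∃ C₁ : ℝ, C₁ = ∑ j, ∑ y ∈ box N, |c j y| := ⟨_, rfl⟩
  have hC₁j : ∀ j, ∑ y ∈ box N, |c j y| ≤ C₁ := by
    intro j
    rw [hC₁]
    exact Finset.single_le_sum (f := fun j => ∑ y ∈ box N, |c j y|)
      (fun j _ => Finset.sum_nonneg fun _ _ => abs_nonneg _) (Finset.mem_univ j)
  have ha : 1 < (4 : ℝ) ^ (2 - τ / 2) := Real.one_lt_rpow (by norm_num) (by linarith)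
  obtain ⟨n₁, hn₁⟩ := pow_unbounded_of_one_lt (4 * C₁ / κ * (4 : ℝ) ^ (τ / 2)) ha
  obtain ⟨n₂, hn₂⟩ := pow_unbounded_of_one_lt (2 * X₀) (by norm_num : (1 : ℝ) < 4)
  obtain ⟨n, hn⟩ : ∃ n : ℕ, n = max n₁ n₂ := ⟨_, rfl⟩
  refine ⟨4 * C + ∑ e ∈ Finset.range n, ((cub (2 ^ (e + 1))).card : ℝ), ?_⟩
  intro e m
  have hK0 : (0 : ℝ) ≤ ∑ e ∈ Finset.range n, ((cub (2 ^ (e + 1))).card : ℝ) :=
    Finset.sum_nonneg fun _ _ => Nat.cast_nonneg _
  have h4e : (1 : ℝ) ≤ 4 ^ e := one_le_pow₀ (by norm_num)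
  set A := (cub (2 ^ (e + 1))).filter fun k => near p 1 τ k (-(k + m)) m ≠ 0 ∧
    (4 : ℝ) ^ e ≤ mx k (-(k + m)) m ∧ mx k (-(k + m)) m < (4 : ℝ) ^ (e + 1) with hA
  have hAnear : ∀ k ∈ A, m ≠ 0 ∧ |p k + p (-(k + m)) + p m| < 1 * mx k (-(k + m)) m ^ (τ / 2) := by
    intro k hk
    have h := (Finset.mem_filter.1 hk).2.1
    unfold near at h
    split_ifs at h with h'
    · exact ⟨h'.2.2.1, h'.2.2.2⟩
    · exact absurd rfl h
  set h : ℝ := ((4 : ℝ) ^ (e + 1)) ^ (τ / 2) with hh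
  have hh0 : 0 ≤ h := by positivity
  have hP : ∀ k ∈ A, |p k - p (k + m) + p m| ≤ h := by
    intro k hk
    have h1 := (hAnear k hk).2
    rw [hodd, one_mul, ← sub_eq_add_neg] at h1
    refine h1.le.trans ?_
    refine Real.rpow_le_rpow ?_ (Finset.mem_filter.1 hk).2.2.2.le (by linarith)
    exact le_trans (by positivity) (Finset.mem_filter.1 hk).2.2.1
  have h1 := hC (fun x => p x - p (x + m) + p m) (polyD_P hp m) h (2 ^ (e + 1)) Nat.one_le_two_pow A
    (Finset.filter_subset _ _) hP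
  refine h1.trans ?_
  have h2 : (((2 ^ (e + 1) : ℕ) : ℝ)) ^ 2 = 4 * 4 ^ e := by
    push_cast
    rw [← pow_mul, mul_comm (e + 1) 2, pow_mul]
    norm_num
    ring
  rw [h2, add_mul]
  refine add_le_add (le_of_eq (by ring)) ?_
  by_cases hne : n ≤ e
  · -- large shells
    have h3 : (A.filter fun k => ∀ y ∈ box N, |(fun x => p x - p (x + m) + p m) (k + y)| ≤ h) = ∅ := by
      rw [Finset.filter_eq_empty_iff]
      intro k hk hbad
      obtain ⟨hm, -⟩ := hAnear k hk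
      have hkm : k ≠ k + m := by
        intro h
        apply hm
        have := congrArg (fun x => x - k) h
        simpa using this.symm
      obtain ⟨S, hS⟩ : ∃ S : ℝ, S = nsq k + nsq (k + m) := ⟨_, rfl⟩
      have hS4 : (4 : ℝ) ^ e ≤ 2 * S := by
        rw [hS]
        exact (Finset.mem_filter.1 hk).2.2.1.trans (mx_le k m)
      have hSX : X₀ ≤ S := by
        have g1 : (4 : ℝ) ^ n₂ ≤ 4 ^ e := pow_le_pow_right₀ (by norm_num)
          ((le_max_right n₁ n₂).trans (hn ▸ hne))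
        linarith
      obtain ⟨j, hj⟩ := hsp k (k + m) hkm (by rw [← hS]; exact hSX)
      rw [← hS] at hj
      have h5 : |∑ y ∈ box N, c j y * p (k + y) - ∑ y ∈ box N, c j y * p (k + m + y)| ≤ C₁ * h := by
        have h6 : ∑ y ∈ box N, c j y * p (k + y) - ∑ y ∈ box N, c j y * p (k + m + y) =
            ∑ y ∈ box N, c j y * (p (k + y) - p (k + y + m) + p m) := by
          rw [← Finset.sum_sub_distrib]
          have h7 : ∑ y ∈ box N, c j y * (p (k + y) - p (k + y + m) + p m) =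
              ∑ y ∈ box N, (c j y * p (k + y) - c j y * p (k + m + y)) +
                (∑ y ∈ box N, c j y) * p m := by
            rw [Finset.sum_mul, ← Finset.sum_add_distrib]
            refine Finset.sum_congr rfl fun y _ => ?_
            rw [add_right_comm k y m]
            ring
          rw [h7, hc0, zero_mul, add_zero]
        rw [h6]
        calc |∑ y ∈ box N, c j y * (p (k + y) - p (k + y + m) + p m)|
            ≤ ∑ y ∈ box N, |c j y * (p (k + y) - p (k + y + m) + p m)| :=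
              Finset.abs_sum_le_sum_abs _ _
          _ ≤ ∑ y ∈ box N, |c j y| * h := by
              refine Finset.sum_le_sum fun y hy => ?_
              rw [abs_mul]
              exact mul_le_mul_of_nonneg_left (hbad y hy) (abs_nonneg _)
          _ = (∑ y ∈ box N, |c j y|) * h := by rw [Finset.sum_mul]
          _ ≤ C₁ * h := mul_le_mul_of_nonneg_right (hC₁j j) hh0
      have h6 : κ * S ^ 2 ≤ C₁ * h := hj.trans h5
      have h7 : S ^ 2 ≤ C₁ * h / κ := by
        rw [le_div_iff₀ hκ]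
        linarith
      have h9 : ((4 : ℝ) ^ e) ^ 2 ≤ (2 * S) ^ 2 := pow_le_pow_left₀ (by positivity) hS4 2
      rw [← pow_mul, mul_comm e 2, pow_mul] at h9
      norm_num at h9
      have h10 := growth hn₁ ha (le_trans (hn ▸ le_max_left n₁ n₂) hne)
      rw [← hh] at h10
      have h11 : 4 * C₁ / κ * h = 4 * (C₁ * h / κ) := by ring
      rw [h11] at h10
      nlinarith
    refine le_trans (le_of_eq ?_) (mul_nonneg hK0 (zero_le_one.trans h4e))
    rw [Nat.cast_eq_zero, Finset.card_eq_zero]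
    exact h3
  · -- small shells
    have h3 : ((A.filter fun k => ∀ y ∈ box N, |(fun x => p x - p (x + m) + p m) (k + y)| ≤ h).card
        : ℝ) ≤ ((cub (2 ^ (e + 1))).card : ℝ) := by
      exact_mod_cast Finset.card_le_card
        ((Finset.filter_subset _ _).trans (Finset.filter_subset _ _))
    refine h3.trans ?_
    have h4 : ((cub (2 ^ (e + 1))).card : ℝ) ≤
        ∑ e ∈ Finset.range n, ((cub (2 ^ (e + 1))).card : ℝ) :=
      Finset.single_le_sum (f := fun e => ((cub (2 ^ (e + 1))).card : ℝ))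
        (fun _ _ => Nat.cast_nonneg _) (Finset.mem_range.2 (not_le.1 hne))
    refine h4.trans ?_
    exact le_mul_of_one_le_right hK0 h4e

end Pool.Agent.U925.DX
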